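/-
helper88.  Part M (Mostow rigidity, coarse form) of helper21's project on MP_7b8095_gt.

The sphere at infinity of `X = H^4` is the unit sphere `Sph` of `Fin 4 → ℝ`; `kp y` is the point of the
Klein model with hyperboloid coordinates `y`; `kact g` is the projective action of `g` on the closed
ball.  `bb u v = 1 - u·v = -⟨(u,1),(v,1)⟩`.  `E = ℝ³` is the chart `st` of the sphere minus `pinf`;
`nv x` is the null vector of `x`, `ninf` the null vector of the point at infinity and `hp x t` is the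
point of `X` with half space coordinates `(x,t)`.
-/
import Pool.Agent.helper21.WB.Basic

set_option autoImplicit false
open Matrix MeasureTheory

namespace Pool.Agent.helper88.WB
open Pool.Agent.helper21.WB

/-- Gromov product of `x` and `y` seen from `w` -/
noncomputable def gp (x y w : X) : ℝ := (hd x w + hd y w - hd x y) / 2

/-- near isometry at scale `D` -/
def NI (D a : ℝ) (F : X → X) : Prop := ∀ x y, hd x y ≤ D → |hd (F x) (F y) - hd x y| ≤ a

/-- the vector `(u,1)` -/
def nl (u : Fin 4 → ℝ) : I → ℝ := Sum.elim u (fun _ => 1)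

/-- projection from the light cone and its interior to the closed unit ball -/
noncomputable def kl (v : I → ℝ) : Fin 4 → ℝ := fun i => v (Sum.inl i) / v o

/-- the sphere at infinity -/
def Sph : Set (Fin 4 → ℝ) := {u | ∑ i, u i ^ 2 = 1}

/-- the closed unit ball -/
def Bal : Set (Fin 4 → ℝ) := {u | ∑ i, u i ^ 2 ≤ 1}

/-- Klein coordinates of a point of `X` -/
noncomputable def kp (y : X) : Fin 4 → ℝ := kl (lift y)

/-- the projective action on the closed unit ball -/
noncomputable def kact (g : GLI) (u : Fin 4 → ℝ) : Fin 4 → ℝ := kl (g.val *ᵥ nl u)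

/-- `1 - u·v` -/
noncomputable def bb (u v : Fin 4 → ℝ) : ℝ := 1 - ∑ i, u i * v i

/-- the ray from `0` in the direction `u` -/
noncomputable def ray (u : Fin 4 → ℝ) (s : ℝ) : X := fun i => Real.sinh s * u i

/-- quasi-Moebius maps of the sphere (weak form) -/
def QM (H : ℝ) (θ : (Fin 4 → ℝ) → (Fin 4 → ℝ)) : Prop :=
  ∀ u₁ ∈ Sph, ∀ u₂ ∈ Sph, ∀ u₃ ∈ Sph, ∀ u₄ ∈ Sph, bb u₁ u₂ * bb u₃ u₄ ≤ bb u₁ u₃ * bb u₂ u₄ →
    bb (θ u₁) (θ u₂) * bb (θ u₃) (θ u₄) ≤ H * (bb (θ u₁) (θ u₃) * bb (θ u₂) (θ u₄))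

/-- Euclidean three space -/
abbrev E : Type := EuclideanSpace ℝ (Fin 3)

/-- weakly quasisymmetric maps of `ℝ³` -/
def WQS (H : ℝ) (f : E → E) : Prop := ∀ x y z : E, ‖x - y‖ ≤ ‖x - z‖ → ‖f x - f y‖ ≤ H * ‖f x - f z‖

/-- the null vector of `x ∈ ℝ³`; `bl (nv x) (nv y) = -|x-y|²/2` -/
noncomputable def nv (x : E) : I → ℝ :=
  Sum.elim (Fin.snoc (α := fun _ => ℝ) (fun i : Fin 3 => x i) ((1 - ‖x‖ ^ 2) / 2)) (fun _ => (1 + ‖x‖ ^ 2) / 2)

/-- the null vector of infinity; `bl (nv x) ninf = -1` -/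
noncomputable def ninf : I → ℝ :=
  Sum.elim (Fin.snoc (α := fun _ => ℝ) (fun _ : Fin 3 => 0) (-1)) (fun _ => 1)

/-- the chart of the sphere -/
noncomputable def st (x : E) : Fin 4 → ℝ := kl (nv x)

/-- the point at infinity -/
noncomputable def pinf : Fin 4 → ℝ := kl ninf

/-- the point with half space coordinates `(x,t)` -/
noncomputable def hp (x : E) (t : ℝ) : X :=
  Fin.snoc (α := fun _ => ℝ) (fun i : Fin 3 => x i / t) ((1 - ‖x‖ ^ 2 - t ^ 2) / (2 * t))

/-- `v` is the image of `u` under the extension of the linear map `A` to the sphere -/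
def Rel (A : E → E) (u v : Fin 4 → ℝ) : Prop := (u = pinf ∧ v = pinf) ∨ ∃ y : E, u = st y ∧ v = st (A y)

end Pool.Agent.helper88.WB
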