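import Pool.Agent.helper88.WB.MDefs

/-! [ME0] The chart of the sphere at infinity, half space coordinates, similarities. -/

set_option autoImplicit false
open Matrix MeasureTheory Filter Topology

namespace Pool.Agent.helper88.WB
open Pool.Agent.helper21.WB

namespace ME0

/-- vectors of `ℝ^{4,1}` in the coordinates `(ξ,σ,δ)`, `σ = a+b`, `δ = b-a` -/
noncomputable def mkv (ξ : E) (σ δ : ℝ) : I → ℝ :=
  Sum.elim (Fin.snoc (α := fun _ => ℝ) (fun i : Fin 3 => ξ i) ((σ - δ) / 2)) (fun _ => (σ + δ) / 2)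

noncomputable def pr (v : I → ℝ) : E := WithLp.toLp 2 (fun i : Fin 3 => v (Sum.inl (Fin.castSucc i)))
noncomputable def sg (v : I → ℝ) : ℝ := v (Sum.inl (Fin.last 3)) + v o
noncomputable def dl (v : I → ℝ) : ℝ := v o - v (Sum.inl (Fin.last 3))

theorem mkv_cast (ξ : E) (σ δ : ℝ) (i : Fin 3) : mkv ξ σ δ (Sum.inl (Fin.castSucc i)) = ξ i := by
  simp [mkv]
theorem mkv_last (ξ : E) (σ δ : ℝ) : mkv ξ σ δ (Sum.inl (Fin.last 3)) = (σ - δ) / 2 := by
  show Fin.snoc (α := fun _ => ℝ) (fun i : Fin 3 => ξ i) ((σ - δ) / 2) (Fin.last 3) = _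
  rw [Fin.snoc_last]
theorem mkv_o (ξ : E) (σ δ : ℝ) : mkv ξ σ δ o = (σ + δ) / 2 := by
  simp [mkv]

theorem ext_I {v w : I → ℝ} (h1 : ∀ i : Fin 3, v (Sum.inl (Fin.castSucc i)) = w (Sum.inl (Fin.castSucc i)))
    (h2 : v (Sum.inl (Fin.last 3)) = w (Sum.inl (Fin.last 3))) (h3 : v o = w o) : v = w := by
  ext i
  rcases i with i | i
  · refine Fin.lastCases h2 (fun i => h1 i) i
  · exact h3

theorem mkv_pr (v : I → ℝ) : mkv (pr v) (sg v) (dl v) = v := by
  refine ext_I (fun i => ?_) ?_ ?_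
  · rw [mkv_cast]; rfl
  · rw [mkv_last]; unfold sg dl; ring
  · rw [mkv_o]; unfold sg dl; ring

theorem pr_mkv (ξ : E) (σ δ : ℝ) : pr (mkv ξ σ δ) = ξ := by
  ext i; exact mkv_cast ξ σ δ i
theorem sg_mkv (ξ : E) (σ δ : ℝ) : sg (mkv ξ σ δ) = σ := by
  unfold sg; rw [mkv_last, mkv_o]; ring
theorem dl_mkv (ξ : E) (σ δ : ℝ) : dl (mkv ξ σ δ) = δ := by
  unfold dl; rw [mkv_last, mkv_o]; ring

theorem bl_mkv (ξ ξ' : E) (σ δ σ' δ' : ℝ) :
    bl (mkv ξ σ δ) (mkv ξ' σ' δ') = inner ℝ ξ ξ' - (σ * δ' + δ * σ') / 2 := by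
  rw [bl_apply, Fin.sum_univ_castSucc]
  simp only [mkv_cast, mkv_last, mkv_o]
  rw [PiLp.inner_apply]
  simp only [RCLike.inner_apply, conj_trivial]
  have : ∑ i : Fin 3, ξ i * ξ' i = ∑ i : Fin 3, ξ' i * ξ i :=
    Finset.sum_congr rfl (fun i _ => mul_comm _ _)
  rw [this]; ring

theorem nv_eq (x : E) : nv x = mkv x 1 (‖x‖ ^ 2) := rfl
theorem ninf_eq : ninf = mkv 0 0 2 := by
  refine ext_I (fun i => ?_) ?_ ?_
  · rw [mkv_cast]; simp [ninf]
  · rw [mkv_last]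
    show Fin.snoc (α := fun _ => ℝ) (fun _ : Fin 3 => (0:ℝ)) (-1) (Fin.last 3) = _
    rw [Fin.snoc_last]; norm_num
  · rw [mkv_o]; simp [ninf]

theorem smul_mkv (c : ℝ) (ξ : E) (σ δ : ℝ) : c • mkv ξ σ δ = mkv (c • ξ) (c * σ) (c * δ) := by
  refine ext_I (fun i => ?_) ?_ ?_
  · simp only [Pi.smul_apply, mkv_cast]; rfl
  · simp only [Pi.smul_apply, mkv_last, smul_eq_mul]; ring
  · simp only [Pi.smul_apply, mkv_o, smul_eq_mul]; ring

theorem add_mkv (ξ ξ' : E) (σ δ σ' δ' : ℝ) :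
    mkv ξ σ δ + mkv ξ' σ' δ' = mkv (ξ + ξ') (σ + σ') (δ + δ') := by
  refine ext_I (fun i => ?_) ?_ ?_
  · simp only [Pi.add_apply, mkv_cast]; rfl
  · simp only [Pi.add_apply, mkv_last]; ring
  · simp only [Pi.add_apply, mkv_o]; ring

theorem kl_smul' {c : ℝ} (hc : c ≠ 0) (v : I → ℝ) : kl (c • v) = kl v := by
  ext i
  simp only [kl, Pi.smul_apply, smul_eq_mul]
  rw [mul_div_mul_left _ _ hc]

theorem nl_kl' {v : I → ℝ} (hv : v o ≠ 0) : nl (kl v) = (v o)⁻¹ • v := by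
  ext i
  rcases i with i | i
  · simp only [nl, kl, Sum.elim_inl, Pi.smul_apply, smul_eq_mul]; ring
  · show (1:ℝ) = (v o)⁻¹ * v o
    rw [inv_mul_cancel₀ hv]

theorem kl_mem {v : I → ℝ} (h : bl v v = 0) (h0 : v o ≠ 0) : kl v ∈ Sph := by
  show ∑ i, (v (Sum.inl i) / v o) ^ 2 = 1
  simp only [div_pow]
  rw [← Finset.sum_div, div_eq_one_iff_eq (pow_ne_zero 2 h0)]
  rw [bl_apply] at h
  have : ∑ i : Fin 4, v (Sum.inl i) * v (Sum.inl i) = ∑ i : Fin 4, v (Sum.inl i) ^ 2 :=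
    Finset.sum_congr rfl (fun i _ => by ring)
  rw [this] at h
  nlinarith

theorem bb_kl {v w : I → ℝ} (hv : v o ≠ 0) (hw : w o ≠ 0) :
    bb (kl v) (kl w) = - bl v w / (v o * w o) := by
  unfold bb kl
  rw [bl_apply]
  have : ∑ i : Fin 4, v (Sum.inl i) / v o * (w (Sum.inl i) / w o) =
      (∑ i : Fin 4, v (Sum.inl i) * w (Sum.inl i)) / (v o * w o) := by
    rw [Finset.sum_div]
    exact Finset.sum_congr rfl (fun i _ => by field_simp)
  rw [this]
  field_simp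
  ring

end ME0
open ME0

theorem bl_nv (x y : E) : bl (nv x) (nv y) = - ‖x - y‖ ^ 2 / 2 := by
  rw [nv_eq, nv_eq, bl_mkv, norm_sub_sq_real]; ring
theorem bl_nv_ninf (x : E) : bl (nv x) ninf = -1 := by
  rw [nv_eq, ninf_eq, bl_mkv, inner_zero_right]; ring
theorem bl_ninf : bl ninf ninf = 0 := by
  rw [ninf_eq, bl_mkv, inner_zero_right]; ring
theorem nv_o_pos (x : E) : 0 < nv x o := by
  rw [nv_eq, mkv_o]; positivity
theorem nl_st (x : E) : nl (st x) = (2 / (1 + ‖x‖ ^ 2)) • nv x := by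
  unfold st
  rw [nl_kl' (nv_o_pos x).ne', nv_eq, mkv_o, inv_div]
theorem nl_pinf : nl pinf = ninf := by
  have h : ninf o = 1 := by rw [ninf_eq, mkv_o]; norm_num
  unfold pinf
  rw [nl_kl' (by rw [h]; norm_num), h, inv_one, one_smul]
theorem st_mem (x : E) : st x ∈ Sph := by
  refine kl_mem ?_ (nv_o_pos x).ne'
  rw [bl_nv]; simp
theorem pinf_mem : pinf ∈ Sph := by
  refine kl_mem bl_ninf ?_
  rw [ninf_eq, mkv_o]; norm_num
theorem bb_st (x y : E) : bb (st x) (st y) = 2 * ‖x - y‖ ^ 2 / ((1 + ‖x‖ ^ 2) * (1 + ‖y‖ ^ 2)) := by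
  unfold st
  rw [bb_kl (nv_o_pos x).ne' (nv_o_pos y).ne', bl_nv, nv_eq, nv_eq, mkv_o, mkv_o]
  field_simp
theorem bb_st_pinf (x : E) : bb (st x) pinf = 2 / (1 + ‖x‖ ^ 2) := by
  have h : ninf o = 1 := by rw [ninf_eq, mkv_o]; norm_num
  unfold st pinf
  rw [bb_kl (nv_o_pos x).ne' (by rw [h]; norm_num), bl_nv_ninf, h, nv_eq, mkv_o]
  field_simp
theorem st_cast (x : E) (i : Fin 3) : st x (Fin.castSucc i) = 2 * x i / (1 + ‖x‖ ^ 2) := by
  show nv x (Sum.inl (Fin.castSucc i)) / nv x o = _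
  rw [nv_eq, mkv_cast, mkv_o]; field_simp
theorem st_last (x : E) : st x (Fin.last 3) = (1 - ‖x‖ ^ 2) / (1 + ‖x‖ ^ 2) := by
  show nv x (Sum.inl (Fin.last 3)) / nv x o = _
  rw [nv_eq, mkv_last, mkv_o]; field_simp
theorem pinf_cast (i : Fin 3) : pinf (Fin.castSucc i) = 0 := by
  show ninf (Sum.inl (Fin.castSucc i)) / ninf o = _
  rw [ninf_eq, mkv_cast]; simp
theorem pinf_last : pinf (Fin.last 3) = -1 := by
  show ninf (Sum.inl (Fin.last 3)) / ninf o = _
  rw [ninf_eq, mkv_last, mkv_o]; norm_num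
theorem st_last_ne (x : E) : 1 + st x (Fin.last 3) = 2 / (1 + ‖x‖ ^ 2) := by
  rw [st_last]; field_simp; ring
theorem st_ne_pinf (x : E) : st x ≠ pinf := by
  intro h
  have h1 := congrFun h (Fin.last 3)
  have h2 := st_last_ne x
  rw [h1, pinf_last] at h2
  have : 0 < 2 / (1 + ‖x‖ ^ 2) := by positivity
  linarith

namespace ME0

/-- inverse of the chart -/
noncomputable def inv (u : Fin 4 → ℝ) : E :=
  WithLp.toLp 2 (fun i : Fin 3 => u (Fin.castSucc i) / (1 + u (Fin.last 3)))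

theorem inv_st (x : E) : inv (st x) = x := by
  ext i
  show st x (Fin.castSucc i) / (1 + st x (Fin.last 3)) = x i
  rw [st_last_ne, st_cast]
  field_simp

theorem norm_sq_eq (x : E) : ‖x‖ ^ 2 = ∑ i : Fin 3, x i ^ 2 := by
  rw [EuclideanSpace.norm_sq_eq]
  exact Finset.sum_congr rfl (fun i _ => by rw [Real.norm_eq_abs, sq_abs])

theorem st_inv {u : Fin 4 → ℝ} (hu : u ∈ Sph) (h : 1 + u (Fin.last 3) ≠ 0) : st (inv u) = u := by
  have hu' : ∑ i : Fin 3, u (Fin.castSucc i) ^ 2 + u (Fin.last 3) ^ 2 = 1 := by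
    have : ∑ i, u i ^ 2 = 1 := hu
    rwa [Fin.sum_univ_castSucc] at this
  have hn : ‖inv u‖ ^ 2 = (1 - u (Fin.last 3)) / (1 + u (Fin.last 3)) := by
    rw [norm_sq_eq]
    have : ∑ i : Fin 3, (inv u) i ^ 2 = (∑ i : Fin 3, u (Fin.castSucc i) ^ 2) / (1 + u (Fin.last 3)) ^ 2 := by
      rw [Finset.sum_div]
      refine Finset.sum_congr rfl (fun i _ => ?_)
      show (u (Fin.castSucc i) / (1 + u (Fin.last 3))) ^ 2 = _
      rw [div_pow]
    rw [this, show ∑ i : Fin 3, u (Fin.castSucc i) ^ 2 = 1 - u (Fin.last 3) ^ 2 by linarith]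
    field_simp
    ring
  have h1 : 1 + ‖inv u‖ ^ 2 = 2 / (1 + u (Fin.last 3)) := by
    rw [hn]; field_simp; ring
  ext i
  refine Fin.lastCases ?_ (fun i => ?_) i
  · rw [st_last, h1, hn]; field_simp; ring
  · rw [st_cast, h1]
    show 2 * (u (Fin.castSucc i) / (1 + u (Fin.last 3))) / _ = _
    field_simp

end ME0

theorem st_injective : Function.Injective st := fun x y h => by
  rw [← inv_st x, h, inv_st]
theorem exists_st {u : Fin 4 → ℝ} (hu : u ∈ Sph) (h : u ≠ pinf) : ∃ x, st x = u := by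
  refine ⟨ME0.inv u, st_inv hu ?_⟩
  intro h0
  apply h
  have hu' : ∑ i : Fin 3, u (Fin.castSucc i) ^ 2 + u (Fin.last 3) ^ 2 = 1 := by
    have : ∑ i, u i ^ 2 = 1 := hu
    rwa [Fin.sum_univ_castSucc] at this
  have hl : u (Fin.last 3) = -1 := by linarith
  have hs : ∑ i : Fin 3, u (Fin.castSucc i) ^ 2 = 0 := by rw [hl] at hu'; linarith
  ext i
  refine Fin.lastCases ?_ (fun i => ?_) i
  · rw [hl, pinf_last]
  · rw [pinf_cast]
    have := (Finset.sum_eq_zero_iff_of_nonneg (fun i _ => sq_nonneg _)).1 hs i (Finset.mem_univ i)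
    exact pow_eq_zero_iff (two_ne_zero) |>.1 this
theorem continuous_st : Continuous st := by
  have h0 : Continuous (fun x : E => (2 : ℝ) / (1 + ‖x‖ ^ 2)) :=
    continuous_const.div (by fun_prop) (fun x => by positivity)
  refine continuous_pi (fun i => ?_)
  refine Fin.lastCases ?_ (fun i => ?_) i
  · simp only [st_last]
    exact Continuous.div (by fun_prop) (by fun_prop) (fun x => by positivity)
  · simp only [st_cast]
    refine Continuous.div ?_ (by fun_prop) (fun x => by positivity)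
    exact continuous_const.mul ((EuclideanSpace.proj i).continuous)
theorem tendsto_of_st {α : Type} {l : Filter α} {y : α → E} {x : E}
    (h : Tendsto (fun a => st (y a)) l (𝓝 (st x))) : Tendsto y l (𝓝 x) := by
  have hc : ContinuousAt ME0.inv (st x) := by
    have h1 : 1 + st x (Fin.last 3) ≠ 0 := by
      rw [st_last_ne]; positivity
    unfold ME0.inv
    refine (PiLp.continuous_toLp 2 (fun _ : Fin 3 => ℝ)).continuousAt.comp ?_
    refine continuousAt_pi.2 (fun i => ?_)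
    exact (continuous_apply _).continuousAt.div
      (continuousAt_const.add (continuous_apply _).continuousAt) h1
  have h2 := hc.tendsto.comp h
  rw [inv_st] at h2
  refine h2.congr (fun a => ?_)
  exact inv_st (y a)

namespace ME0
theorem hpv (x : E) (t : ℝ) : t⁻¹ • (nv x + (t ^ 2 / 2) • ninf) = mkv (t⁻¹ • x) t⁻¹ (t⁻¹ * (‖x‖ ^ 2 + t ^ 2)) := by
  rw [nv_eq, ninf_eq, smul_mkv, add_mkv, smul_mkv]
  congr 1
  · rw [smul_zero, add_zero]
  · ring
  · ring
end ME0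

theorem lift_hp (x : E) {t : ℝ} (ht : 0 < t) :
    lift (hp x t) = t⁻¹ • (nv x + (t ^ 2 / 2) • ninf) := by
  have h1 : bl (t⁻¹ • (nv x + (t ^ 2 / 2) • ninf)) (t⁻¹ • (nv x + (t ^ 2 / 2) • ninf)) = -1 := by
    rw [hpv, bl_mkv, inner_smul_left, inner_smul_right, real_inner_self_eq_norm_sq]
    simp only [conj_trivial]
    field_simp
    ring
  have h2 : 0 < (t⁻¹ • (nv x + (t ^ 2 / 2) • ninf)) o := by
    rw [hpv, mkv_o]; positivity
  rw [eq_lift h1 h2]
  congr 1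
  ext i
  rw [hpv]
  unfold hp
  refine Fin.lastCases ?_ (fun i => ?_) i
  · rw [mkv_last, Fin.snoc_last]; field_simp; ring
  · rw [mkv_cast, Fin.snoc_castSucc]
    show x i / t = t⁻¹ * x i
    rw [div_eq_inv_mul]

theorem tendsto_kp_hp (x : E) : Tendsto (fun t => kp (hp x t)) (𝓝[>] 0) (𝓝 (st x)) := by
  have h1 : ∀ᶠ t in 𝓝[>] (0:ℝ), kl (nv x + (t ^ 2 / 2) • ninf) = kp (hp x t) := by
    filter_upwards [self_mem_nhdsWithin] with t ht
    unfold kp
    rw [lift_hp x ht, kl_smul' (inv_ne_zero (ne_of_gt ht))]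
  refine Tendsto.congr' h1 ?_
  have h2 : Continuous (fun t : ℝ => nv x + (t ^ 2 / 2) • ninf) := by fun_prop
  have h3 : ContinuousAt (fun t : ℝ => kl (nv x + (t ^ 2 / 2) • ninf)) 0 := by
    unfold kl
    refine continuousAt_pi.2 (fun i => ?_)
    refine ContinuousAt.div ((continuous_apply _).comp h2).continuousAt
      ((continuous_apply _).comp h2).continuousAt ?_
    simp only [ne_eq, OfNat.ofNat_ne_zero, not_false_eq_true, zero_pow, zero_div, zero_smul, add_zero]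
    exact (nv_o_pos x).ne'
  have h4 := h3.tendsto
  simp only [ne_eq, OfNat.ofNat_ne_zero, not_false_eq_true, zero_pow, zero_div, zero_smul,
    add_zero] at h4
  exact h4.mono_left nhdsWithin_le_nhds

theorem exists_hp (y : X) : ∃ (x : E) (t : ℝ), 0 < t ∧ hp x t = y := by
  have hsq : lift y o ^ 2 = 1 + (∑ i : Fin 3, y (Fin.castSucc i) ^ 2 + y (Fin.last 3) ^ 2) := by
    rw [lift_o_sq, Fin.sum_univ_castSucc]
  have ho := lift_o_pos y
  have hs0 : 0 ≤ ∑ i : Fin 3, y (Fin.castSucc i) ^ 2 := Finset.sum_nonneg (fun i _ => sq_nonneg _)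
  set z := lift y o
  set w := y (Fin.last 3)
  set s := ∑ i : Fin 3, y (Fin.castSucc i) ^ 2
  have hα : 0 < w + z := by nlinarith
  refine ⟨WithLp.toLp 2 (fun i : Fin 3 => (w + z)⁻¹ * y (Fin.castSucc i)), (w + z)⁻¹, by positivity, ?_⟩
  have hn : ‖(WithLp.toLp 2 (fun i : Fin 3 => (w + z)⁻¹ * y (Fin.castSucc i)) : E)‖ ^ 2 =
      ((w + z)⁻¹) ^ 2 * s := by
    rw [norm_sq_eq, Finset.mul_sum]
    refine Finset.sum_congr rfl (fun i _ => ?_)
    show ((w + z)⁻¹ * y (Fin.castSucc i)) ^ 2 = _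
    rw [mul_pow]
  ext i
  unfold hp
  refine Fin.lastCases ?_ (fun i => ?_) i
  · rw [Fin.snoc_last, hn]
    show _ = w
    have hs : s = z ^ 2 - 1 - w ^ 2 := by linarith
    rw [hs]
    field_simp
    ring
  · rw [Fin.snoc_castSucc]
    show (w + z)⁻¹ * y (Fin.castSucc i) / (w + z)⁻¹ = _
    field_simp

namespace ME0

/-- matrices preserving the form -/
theorem lor_of_bl {M : Mat} (h : ∀ v w, bl (M *ᵥ v) (M *ᵥ w) = bl v w) : Mᵀ * helper21.WB.J * M = helper21.WB.J := by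
  have h1 : ∀ v w : I → ℝ, v ⬝ᵥ ((Mᵀ * helper21.WB.J * M) *ᵥ w) = v ⬝ᵥ (helper21.WB.J *ᵥ w) := by
    intro v w
    have := h v w
    unfold bl at this
    rw [← this, Matrix.mulVec_mulVec, Matrix.dotProduct_mulVec (M *ᵥ v), Matrix.vecMul_mulVec,
      ← Matrix.mul_assoc, ← Matrix.dotProduct_mulVec]
  ext i j
  have := h1 (Pi.single i 1) (Pi.single j 1)
  simpa using this

/-- the linear map of a similarity -/
noncomputable def T (L : E ≃ₗᵢ[ℝ] E) (x : E) (t : ℝ) : (I → ℝ) →ₗ[ℝ] (I → ℝ) where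
  toFun v := mkv ((t⁻¹ * sg v) • x + L (pr v)) (t⁻¹ * sg v)
    (t⁻¹ * ‖x‖ ^ 2 * sg v + 2 * inner ℝ x (L (pr v)) + t * dl v)
  map_add' v w := by
    have e1 : pr (v + w) = pr v + pr w := rfl
    have e2 : sg (v + w) = sg v + sg w := by simp only [sg, Pi.add_apply]; ring
    have e3 : dl (v + w) = dl v + dl w := by simp only [dl, Pi.add_apply]; ring
    rw [add_mkv, e1, e2, e3, map_add, inner_add_right]
    congr 1
    · rw [mul_add, add_smul]; abel
    · ring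
    · ring
  map_smul' c v := by
    have e1 : pr (c • v) = c • pr v := rfl
    have e2 : sg (c • v) = c * sg v := by simp only [sg, Pi.smul_apply, smul_eq_mul]; ring
    have e3 : dl (c • v) = c * dl v := by simp only [dl, Pi.smul_apply, smul_eq_mul]; ring
    rw [RingHom.id_apply, smul_mkv, e1, e2, e3, map_smul, inner_smul_right]
    congr 1
    · rw [smul_add, smul_smul]; congr 2; ring
    · ring
    · ring

theorem bl_T (L : E ≃ₗᵢ[ℝ] E) (x : E) {t : ℝ} (ht : t ≠ 0) (v w : I → ℝ) :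
    bl (T L x t v) (T L x t w) = bl v w := by
  show bl (mkv _ _ _) (mkv _ _ _) = _
  rw [bl_mkv]
  conv_rhs => rw [← mkv_pr v, ← mkv_pr w, bl_mkv]
  rw [inner_add_left, inner_add_right, inner_add_right, inner_smul_left, inner_smul_right,
    inner_smul_left, inner_smul_right, real_inner_self_eq_norm_sq, LinearIsometryEquiv.inner_map_map,
    real_inner_comm x (L (pr v))]
  simp only [conj_trivial]
  field_simp
  ring

theorem exists_GLI {f : (I → ℝ) →ₗ[ℝ] (I → ℝ)} (h : ∀ v w, bl (f v) (f w) = bl v w)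
    (h0 : 0 < f (lift 0) o) : ∃ g : GLI, InG g ∧ ∀ v, g.val *ᵥ v = f v := by
  have hM : ∀ v, (LinearMap.toMatrix' f) *ᵥ v = f v := fun v => LinearMap.toMatrix'_mulVec f v
  have hJ : (LinearMap.toMatrix' f)ᵀ * helper21.WB.J * (LinearMap.toMatrix' f) = helper21.WB.J :=
    lor_of_bl (fun v w => by rw [hM, hM, h])
  have h1 : (helper21.WB.J * (LinearMap.toMatrix' f)ᵀ * helper21.WB.J) * (LinearMap.toMatrix' f) = 1 := by
    rw [Matrix.mul_assoc helper21.WB.J, Matrix.mul_assoc helper21.WB.J, hJ, J_mul_J]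
  have h2 : (LinearMap.toMatrix' f) * (helper21.WB.J * (LinearMap.toMatrix' f)ᵀ * helper21.WB.J) = 1 := mul_eq_one_comm.1 h1
  refine ⟨⟨LinearMap.toMatrix' f, helper21.WB.J * (LinearMap.toMatrix' f)ᵀ * helper21.WB.J, h2, h1⟩, ⟨hJ, ?_⟩, hM⟩
  have h3 : ((LinearMap.toMatrix' f) *ᵥ lift 0) o = (LinearMap.toMatrix' f) o o :=
    mulVec_lift_zero _ _
  show 0 < (LinearMap.toMatrix' f) o o
  rw [← h3, hM]
  exact h0

end ME0

/-- similarities -/
theorem exists_sim (L : E ≃ₗᵢ[ℝ] E) (x : E) {t : ℝ} (ht : 0 < t) : ∃ g : GLI, InG g ∧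
    (∀ y : E, g.val *ᵥ nv y = t⁻¹ • nv (x + t • L y)) ∧ g.val *ᵥ ninf = t • ninf ∧
    act g 0 = hp x t := by
  have h0 : T L x t (lift 0) = t⁻¹ • (nv x + (t ^ 2 / 2) • ninf) := by
    have e : lift 0 = mkv 0 1 1 := by
      refine ext_I (fun i => ?_) ?_ ?_
      · rw [mkv_cast, lift_zero]; simp
      · rw [mkv_last, lift_zero]; simp
      · rw [mkv_o, lift_zero]; norm_num
    rw [e, hpv]
    show mkv _ _ _ = _
    rw [pr_mkv, sg_mkv, dl_mkv, map_zero, inner_zero_right]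
    congr 1
    · simp
    · ring
    · field_simp; ring
  obtain ⟨g, hg, hgT⟩ := exists_GLI (f := T L x t) (bl_T L x ht.ne') (by
    rw [h0, hpv, mkv_o]; positivity)
  refine ⟨g, hg, fun y => ?_, ?_, ?_⟩
  · rw [hgT, nv_eq, nv_eq, smul_mkv]
    show mkv _ _ _ = _
    rw [pr_mkv, sg_mkv, dl_mkv]
    congr 1
    · rw [smul_add, smul_smul, inv_mul_cancel₀ ht.ne', one_smul, mul_one]
    · rw [norm_add_sq_real, norm_smul, inner_smul_right, LinearIsometryEquiv.norm_map,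
        Real.norm_eq_abs, abs_of_pos ht]
      field_simp
  · rw [hgT, ninf_eq, smul_mkv]
    show mkv _ _ _ = _
    rw [pr_mkv, sg_mkv, dl_mkv, map_zero, inner_zero_right]
    congr 1
    · simp
    · ring
    · ring
  · apply lift_injective
    rw [lift_act hg, hgT, h0, lift_hp x ht]

theorem kact_st_of {g : GLI} {x z : E} {c : ℝ} (hc : 0 < c) (h : g.val *ᵥ nv x = c • nv z) :
    kact g (st x) = st z := by
  unfold kact
  rw [nl_st, Matrix.mulVec_smul, h, smul_smul, kl_smul' (by positivity)]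
  rfl
theorem kact_pinf_of {g : GLI} {c : ℝ} (hc : 0 < c) (h : g.val *ᵥ ninf = c • ninf) :
    kact g pinf = pinf := by
  unfold kact
  rw [nl_pinf, h, kl_smul' hc.ne']
  rfl

end Pool.Agent.helper88.WB
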