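import Pool.Agent.helper70.WB.MK
import Pool.Agent.helper88.WB.ME0
import Pool.Agent.helper96.WB.MA12
import Pool.Agent.helper39.WB.MA3
import Pool.Agent.helper19.WB.B1a
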